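import Mathlib
import Pool.Agent.Work.MP_c7de0c_pr.Defs
import Pool.Agent.Work.MP_c7de0c_pr.NegMain

open MeasureTheory Filter Asymptotics Topology Pool.Agent.Work.MP_c7de0c_pr

/-- A monotone graph property and a function `d = O(n / log n)` for which no lower and upper
threshold functions `L`, `U` exist.  In condition (ii) an edge probability above `1` is read as
`1`, so that the condition is not void when `U` does not tend to `0`. -/
theorem Pool.Agent.Results.MP_c7de0c_pr.NoThresholds.result :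
    ∃ (P : (n : ℕ) → Set (SimpleGraph (Fin n))) (d : ℕ → ℕ),
      (∀ n, IsUpperSet (P n)) ∧
      (∀ (n : ℕ) (G H : SimpleGraph (Fin n)), Nonempty (G ≃g H) → G ∈ P n → H ∈ P n) ∧
      (∀ᶠ n in atTop, (P n).Nonempty ∧ P n ≠ Set.univ) ∧
      (fun n => (d n : ℝ)) =O[atTop] (fun n => (n : ℝ) / Real.log n) ∧
      ¬ ∃ L U : ℕ → ℝ,
        (∀ p : ℕ → ℝ, (∀ n, p n ∈ Set.Icc (0 : ℝ) 1) → p =o[atTop] L →
          ∀ μ : (n : ℕ) → Measure (SimpleGraph (Fin n)), (∀ n, IsDepDist n (p n) (d n) (μ n)) →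
            Tendsto (fun n => (μ n).real (P n)ᶜ) atTop (𝓝 1)) ∧
        (∀ p : ℕ → ℝ, (∀ n, 0 ≤ p n) → U =o[atTop] p →
          ∀ μ : (n : ℕ) → Measure (SimpleGraph (Fin n)),
            (∀ n, IsDepDist n (min (p n) 1) (d n) (μ n)) →
            Tendsto (fun n => (μ n).real (P n)) atTop (𝓝 1)) ∧
        (∀ p : ℕ → ℝ, (∀ n, p n ∈ Set.Icc (0 : ℝ) 1) → L =o[atTop] p → p =o[atTop] U →
          ∃ μ₁ μ₂ : (n : ℕ) → Measure (SimpleGraph (Fin n)),
            (∀ n, IsDepDist n (p n) (d n) (μ₁ n)) ∧ (∀ n, IsDepDist n (p n) (d n) (μ₂ n)) ∧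
            Tendsto (fun n => (μ₁ n).real (P n)) atTop (𝓝 1) ∧
            Tendsto (fun n => (μ₂ n).real (P n)ᶜ) atTop (𝓝 1)) :=
  Neg.no_thresholds
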