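import Mathlib
import Pool.Agent.Work.MP_c7de0c_pr.Defs
import Pool.Agent.Work.MP_c7de0c_pr.Main

open MeasureTheory Filter Asymptotics Topology Pool.Agent.Work.MP_c7de0c_pr

/-- Lower and upper thresholds for `d`-dependent random graphs, for every monotone property and
every `d = d(n)`, with the range of the avoiding distribution shortened by the factor `d + 1`. -/
theorem Pool.Agent.Results.MP_c7de0c_pr.ThresholdWindow.result
    (P : (n : ℕ) → Set (SimpleGraph (Fin n))) (hmono : ∀ n, IsUpperSet (P n))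
    (hnt : ∀ᶠ n in atTop, (P n).Nonempty ∧ P n ≠ Set.univ) (d : ℕ → ℕ) :
    ∃ L U : ℕ → ℝ, (∀ n, 0 < L n) ∧ (∀ n, 0 < U n) ∧
      (∀ p : ℕ → ℝ, (∀ n, p n ∈ Set.Icc (0 : ℝ) 1) → p =o[atTop] L →
        ∀ μ : (n : ℕ) → Measure (SimpleGraph (Fin n)), (∀ n, IsDepDist n (p n) (d n) (μ n)) →
          Tendsto (fun n => (μ n).real (P n)ᶜ) atTop (𝓝 1)) ∧
      (∀ p : ℕ → ℝ, (∀ n, p n ∈ Set.Icc (0 : ℝ) 1) → U =o[atTop] p →
        ∀ μ : (n : ℕ) → Measure (SimpleGraph (Fin n)), (∀ n, IsDepDist n (p n) (d n) (μ n)) →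
          Tendsto (fun n => (μ n).real (P n)) atTop (𝓝 1)) ∧
      (∀ p : ℕ → ℝ, (∀ n, p n ∈ Set.Icc (0 : ℝ) 1) → L =o[atTop] p →
        ∃ μ : (n : ℕ) → Measure (SimpleGraph (Fin n)), (∀ n, IsDepDist n (p n) (d n) (μ n)) ∧
          Tendsto (fun n => (μ n).real (P n)) atTop (𝓝 1)) ∧
      (∀ p : ℕ → ℝ, (∀ n, p n ∈ Set.Icc (0 : ℝ) 1) →
        (fun n => ((d n : ℝ) + 1) * p n) =o[atTop] U →
        ∃ μ : (n : ℕ) → Measure (SimpleGraph (Fin n)), (∀ n, IsDepDist n (p n) (d n) (μ n)) ∧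
          Tendsto (fun n => (μ n).real (P n)ᶜ) atTop (𝓝 1)) :=
  thresholds P hmono hnt d
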